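import Pool.Agent.H79.QN.Stmts

/-!
# Row AC2 of the board `qn`: three points of a window are collinear
-/

set_option autoImplicit false

namespace Pool.Agent.H79.QN

theorem ac2 (h1 : S_AC1) : S_AC2 := by
  intro z₀ r K l z₁ z₂ z₃ hA hm1 hm2 hm3 h12 h13
  have hr0 : (0 : ℝ) < r := lt_of_lt_of_le one_pos hA.r1
  obtain ⟨x, hx0, hx3, hx1, hx2⟩ : ∃ x : ℝ, 0 < x ∧ x ^ 3 = r ∧ r ^ (1 / 3 : ℝ) = x ∧
      r ^ (2 / 3 : ℝ) = x ^ 2 := by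
    refine ⟨r ^ (1 / 3 : ℝ), Real.rpow_pos_of_pos hr0 _, ?_, rfl, ?_⟩
    · rw [← Real.rpow_natCast, ← Real.rpow_mul hr0.le]
      norm_num
    · rw [← Real.rpow_natCast, ← Real.rpow_mul hr0.le]
      norm_num
  have hx1' : 1 ≤ x := by
    by_contra h
    push Not at h
    have h2 : x ^ 3 < 1 := by
      calc x ^ 3 = x * x * x := by ring
        _ < 1 := by nlinarith [mul_pos hx0 hx0]
    rw [hx3] at h2
    linarith [hA.r1]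
  have hK := hA.Kr
  rw [hx2] at hK
  rw [hx1] at h12 h13
  -- lengths of the differences
  have hlen : ∀ z : ℤ × ℤ, Mem z₀ K l z → |(crs z₀ (z - z₁) : ℝ)| ≤ r * (x / 2) →
      (nsq (z - z₁) : ℝ) ≤ 1.21 * (x / 2) ^ 2 := by
    intro z hz hc
    have h2 := h1 z₀ r K l z z₁ hA hz hm1
    have h3 : (crs z₀ (z - z₁) : ℝ) ^ 2 ≤ (r * (x / 2)) ^ 2 := by
      rw [← sq_abs]
      exact pow_le_pow_left₀ (abs_nonneg _) hc 2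
    have h4 : r ^ 2 * (nsq (z - z₁) : ℝ) ≤ r ^ 2 * (1.21 * (x / 2) ^ 2) := by
      calc r ^ 2 * (nsq (z - z₁) : ℝ) ≤ 1.21 * (crs z₀ (z - z₁) : ℝ) ^ 2 := h2
        _ ≤ 1.21 * (r * (x / 2)) ^ 2 := by linarith
        _ = r ^ 2 * (1.21 * (x / 2) ^ 2) := by ring
    exact le_of_mul_le_mul_left h4 (by positivity)
  have hdot : ∀ z : ℤ × ℤ, Mem z₀ K l z → (nsq (z - z₁) : ℝ) ≤ 1.21 * (x / 2) ^ 2 →
      |(dot z₁ (z - z₁) : ℝ)| ≤ 0.16 * x ^ 2 := by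
    intro z hz hn
    have hid : (nsq z : ℝ) - nsq z₁ = 2 * (dot z₁ (z - z₁) : ℝ) + nsq (z - z₁) := by
      simp only [nsq, dot, Prod.fst_sub, Prod.snd_sub]
      push_cast
      ring
    have h2 := abs_le.1 hz.b
    have h3 := abs_le.1 hm1.b
    have h4 : (0 : ℝ) ≤ nsq (z - z₁) := by
      simp only [nsq]
      push_cast
      positivity
    rw [abs_le]
    constructor
    · nlinarith
    · nlinarith
  have ha := hlen z₂ hm2 h12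
  have hb := hlen z₃ hm3 h13
  have hda := hdot z₂ hm2 ha
  have hdb := hdot z₃ hm3 hb
  by_contra hC
  have hC1 : (1 : ℝ) ≤ (crs (z₂ - z₁) (z₃ - z₁) : ℝ) ^ 2 := by
    have h2 : (1 : ℤ) ≤ crs (z₂ - z₁) (z₃ - z₁) ^ 2 := by
      have := sq_pos_of_ne_zero hC
      linarith
    exact_mod_cast h2
  have hN : 0.99 * x ^ 6 ≤ (nsq z₁ : ℝ) := by
    have h3 := abs_le.1 hm1.b
    have h4 := hA.rsq
    have h5 : r ^ 2 = x ^ 6 := by rw [← hx3]; ring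
    have h6 : x ^ 2 ≤ x ^ 6 := pow_le_pow_right₀ hx1' (by norm_num)
    nlinarith
  -- the identity
  have hid2 : (nsq z₁ : ℝ) * (crs (z₂ - z₁) (z₃ - z₁) : ℝ) =
      (dot z₁ (z₂ - z₁) : ℝ) * (crs z₁ (z₃ - z₁) : ℝ) -
        (crs z₁ (z₂ - z₁) : ℝ) * (dot z₁ (z₃ - z₁) : ℝ) := by
    simp only [nsq, dot, crs, Prod.fst_sub, Prod.snd_sub]
    push_cast
    ring
  have hcs : ∀ w : ℤ × ℤ, (crs z₁ w : ℝ) ^ 2 ≤ (nsq z₁ : ℝ) * (nsq w : ℝ) := by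
    intro w
    simp only [nsq, crs]
    push_cast
    nlinarith [sq_nonneg ((z₁.1 : ℝ) * w.1 + z₁.2 * w.2)]
  have hN0 : (0 : ℝ) < nsq z₁ := lt_of_lt_of_le (by positivity) hN
  have hsq : ∀ d : ℝ, |d| ≤ 0.16 * x ^ 2 → d ^ 2 ≤ (0.16 * x ^ 2) ^ 2 := by
    intro d hd
    rw [← sq_abs]
    exact pow_le_pow_left₀ (abs_nonneg _) hd 2
  have hda2 := hsq _ hda
  have hdb2 := hsq _ hdb
  have hca2 : (crs z₁ (z₂ - z₁) : ℝ) ^ 2 ≤ (nsq z₁ : ℝ) * (1.21 * (x / 2) ^ 2) :=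
    le_trans (hcs _) (mul_le_mul_of_nonneg_left ha hN0.le)
  have hcb2 : (crs z₁ (z₃ - z₁) : ℝ) ^ 2 ≤ (nsq z₁ : ℝ) * (1.21 * (x / 2) ^ 2) :=
    le_trans (hcs _) (mul_le_mul_of_nonneg_left hb hN0.le)
  have hp1 : (dot z₁ (z₂ - z₁) : ℝ) ^ 2 * (crs z₁ (z₃ - z₁) : ℝ) ^ 2 ≤
      (0.16 * x ^ 2) ^ 2 * ((nsq z₁ : ℝ) * (1.21 * (x / 2) ^ 2)) :=
    mul_le_mul hda2 hcb2 (by positivity) (by positivity)
  have hp2 : (crs z₁ (z₂ - z₁) : ℝ) ^ 2 * (dot z₁ (z₃ - z₁) : ℝ) ^ 2 ≤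
      ((nsq z₁ : ℝ) * (1.21 * (x / 2) ^ 2)) * (0.16 * x ^ 2) ^ 2 :=
    mul_le_mul hca2 hdb2 (by positivity) (by positivity)
  have hfin : (nsq z₁ : ℝ) ^ 2 ≤ 4 * ((0.16 * x ^ 2) ^ 2 * ((nsq z₁ : ℝ) * (1.21 * (x / 2) ^ 2))) := by
    have h2 : (nsq z₁ : ℝ) ^ 2 * 1 ≤ (nsq z₁ : ℝ) ^ 2 * (crs (z₂ - z₁) (z₃ - z₁) : ℝ) ^ 2 :=
      mul_le_mul_of_nonneg_left hC1 (by positivity)
    have h3 : (nsq z₁ : ℝ) ^ 2 * (crs (z₂ - z₁) (z₃ - z₁) : ℝ) ^ 2 =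
        ((dot z₁ (z₂ - z₁) : ℝ) * (crs z₁ (z₃ - z₁) : ℝ) -
        (crs z₁ (z₂ - z₁) : ℝ) * (dot z₁ (z₃ - z₁) : ℝ)) ^ 2 := by
      rw [← hid2]; ring
    nlinarith [sq_nonneg ((dot z₁ (z₂ - z₁) : ℝ) * (crs z₁ (z₃ - z₁) : ℝ) +
        (crs z₁ (z₂ - z₁) : ℝ) * (dot z₁ (z₃ - z₁) : ℝ))]
  have hfin2 : (nsq z₁ : ℝ) ≤ 4 * ((0.16 * x ^ 2) ^ 2 * (1.21 * (x / 2) ^ 2)) := by
    have h2 : (nsq z₁ : ℝ) * (nsq z₁ : ℝ) ≤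
        (nsq z₁ : ℝ) * (4 * ((0.16 * x ^ 2) ^ 2 * (1.21 * (x / 2) ^ 2))) := by
      calc _ = (nsq z₁ : ℝ) ^ 2 := by ring
        _ ≤ _ := hfin
        _ = _ := by ring
    exact le_of_mul_le_mul_left h2 hN0
  have hx6 : (0 : ℝ) < x ^ 6 := by positivity
  nlinarith

end Pool.Agent.H79.QN
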