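import Pool.Agent.H79.QN.Stmts3

/-!
# Row FTZ of board `qn`: a finite type phase has a large second derivative away from a finite set
-/

set_option autoImplicit false

namespace Pool.Agent.H79.QN

open Set

theorem ftz_min_H66 (t : Finset ℝ) (c : ℝ → ℝ) (h : ∀ x ∈ t, 0 < c x) :
    ∃ c₀ : ℝ, 0 < c₀ ∧ c₀ ≤ 1 ∧ ∀ x ∈ t, c₀ ≤ c x := by
  classical
  induction t using Finset.induction_on with
  | empty => exact ⟨1, one_pos, le_rfl, by simp⟩
  | insert a s ha ih =>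
    obtain ⟨c₀, h0, h1, h2⟩ := ih (fun x hx => h x (Finset.mem_insert_of_mem hx))
    refine ⟨min c₀ (c a), lt_min h0 (h a (Finset.mem_insert_self a s)),
      (min_le_left _ _).trans h1, ?_⟩
    intro x hx
    rcases Finset.mem_insert.mp hx with rfl | hx
    · exact min_le_right _ _
    · exact (min_le_left _ _).trans (h2 x hx)

theorem ftz_local_H66 (hL : S_LTA) (k : ℕ) (φ : ℝ → ℝ) (h : FT k φ) (x₀ : ℝ)
    (hx₀ : x₀ ∈ Icc (-1 : ℝ) 1) :
    ∃ (c ε : ℝ) (m : ℕ), 0 < c ∧ 0 < ε ∧ m ≤ k - 2 ∧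
      ∀ x, |x - x₀| < ε → c * |x - x₀| ^ m ≤ |deriv (deriv φ) x| := by
  classical
  have hex : ∃ j : ℕ, 2 ≤ j ∧ j ≤ k ∧ iteratedDeriv j φ x₀ ≠ 0 := h.ft x₀ hx₀
  obtain ⟨j, hj⟩ : ∃ j, j = Nat.find hex := ⟨_, rfl⟩
  have hspec := Nat.find_spec hex
  rw [← hj] at hspec
  obtain ⟨hj2, hjk, hne⟩ := hspec
  obtain ⟨m, rfl⟩ := Nat.exists_eq_add_of_le' hj2
  have hiter : ∀ (i : ℕ), iteratedDeriv i (deriv (deriv φ)) = iteratedDeriv (i + 2) φ := by
    intro i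
    rw [show i + 2 = (i + 1) + 1 from rfl, iteratedDeriv_succ', iteratedDeriv_succ']
  have hcd : ContDiff ℝ m (deriv (deriv φ)) := by
    have h1 : ContDiff ℝ ((m + 2 : ℕ) : WithTop ℕ∞) φ := h.smooth.of_le (by exact_mod_cast hjk)
    exact ContDiff.iterate_deriv' m 2 h1
  have hzero : ∀ i < m, iteratedDeriv i (deriv (deriv φ)) x₀ = 0 := by
    intro i hi
    rw [hiter]
    by_contra hcon
    have := Nat.find_min hex (m := i + 2) (by rw [← hj]; omega)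
    exact this ⟨by omega, by omega, hcon⟩
  obtain ⟨c, ε, hc, hε, hloc⟩ := hL m (deriv (deriv φ)) x₀ hcd hzero (by rw [hiter]; exact hne)
  exact ⟨c, ε, m, hc, hε, by omega, hloc⟩

theorem ftz (hL : S_LTA) : S_FTZ := by
  intro k φ hk h
  have hloc := fun x₀ => ftz_local_H66 hL k φ h x₀
  choose! c ε m hc hε hm hb using hloc
  obtain ⟨t, ht, hcov⟩ := isCompact_Icc.elim_nhds_subcover (X := ℝ) (s := Icc (-1 : ℝ) 1)
    (fun y => Metric.ball y (ε y)) (fun y hy => Metric.ball_mem_nhds y (hε y hy))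
  obtain ⟨c₀, h0, h1, h2⟩ := ftz_min_H66 t c (fun x hx => hc x (ht x hx))
  refine ⟨t, c₀, h0, h1, ?_⟩
  intro δ hδ hδ1 x hx hfar
  have hxc := hcov hx
  rw [mem_iUnion₂] at hxc
  obtain ⟨y, hy, hxy⟩ := hxc
  rw [Metric.mem_ball, Real.dist_eq] at hxy
  have hy1 := ht y hy
  refine le_trans ?_ (hb y hy1 x hxy)
  have hd := hfar y hy
  have e1 : δ ^ (k - 2) ≤ δ ^ (m y) := pow_le_pow_of_le_one hδ.le hδ1 (hm y hy1)
  have e2 : δ ^ (m y) ≤ |x - y| ^ (m y) := pow_le_pow_left₀ hδ.le hd _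
  exact mul_le_mul (h2 y hy) (e1.trans e2) (by positivity) (hc y hy1).le

end Pool.Agent.H79.QN
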